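import Pool.Agent.H41.AV.Defs

set_option autoImplicit false

/-! # Concentration for pairs of random permutations -/

namespace Pool.Agent.H154.AV

open Equiv Finset Pool.Agent.H41.AV
open scoped Nat

theorem mgf (hm : S_MGF) (α : Type) [Fintype α] [DecidableEq α] (h : Perm α → ℝ) (L lam : ℝ)
    (hL : 0 ≤ L) (hs : ∀ ρ a b, |h (ρ * swap a b) - h ρ| ≤ L) :
    ∑ ρ, Real.exp (lam * (h ρ - (∑ σ, h σ) / ((Fintype.card α)! : ℝ))) ≤
      ((Fintype.card α)! : ℝ) * Real.exp (Fintype.card α * lam ^ 2 * L ^ 2 / 2) := by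
  obtain ⟨e⟩ : Nonempty (α ≃ Fin (Fintype.card α)) := ⟨Fintype.equivFin α⟩
  have hsw : ∀ (ρ : Perm (Fin (Fintype.card α))) (a b : Fin (Fintype.card α)),
      |h (e.permCongr.symm (ρ * swap a b)) - h (e.permCongr.symm ρ)| ≤ L := by
    intro ρ a b
    have h3 : e.permCongr.symm (ρ * swap a b) =
        e.permCongr.symm ρ * swap (e.symm a) (e.symm b) := by
      ext x
      show e.symm (ρ (swap a b (e x))) = e.symm (ρ (e (swap (e.symm a) (e.symm b) x)))
      rw [← e.injective.swap_apply, apply_symm_apply, apply_symm_apply]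
    rw [h3]
    exact hs _ _ _
  have h1 := hm (Fintype.card α) (fun σ => h (e.permCongr.symm σ)) L lam hL hsw
  have h2 : ∑ σ, h (e.permCongr.symm σ) = ∑ σ, h σ := Equiv.sum_comp e.permCongr.symm h
  rw [h2] at h1
  rw [Equiv.sum_comp e.permCongr.symm
    (fun σ => Real.exp (lam * (h σ - (∑ σ, h σ) / ((Fintype.card α)! : ℝ))))] at h1
  exact h1

theorem total (hm : S_MGF) (α : Type) [Fintype α] [DecidableEq α] (f : Perm α → Perm α → ℝ)
    (L lam : ℝ) (hL : 0 ≤ L) (h1 : ∀ ρ τ a b, |f (ρ * swap a b) τ - f ρ τ| ≤ L)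
    (h2 : ∀ ρ τ a b, |f ρ (τ * swap a b) - f ρ τ| ≤ L) :
    ∑ ρ, ∑ τ, Real.exp (lam * (f ρ τ - (∑ ρ, ∑ τ, f ρ τ) / ((Fintype.card α)! : ℝ) ^ 2)) ≤
      ((Fintype.card α)! : ℝ) ^ 2 * Real.exp (Fintype.card α * lam ^ 2 * L ^ 2) := by
  have hN0 : (0 : ℝ) < ((Fintype.card α)! : ℝ) := by exact_mod_cast Nat.factorial_pos _
  obtain ⟨g, hg⟩ : ∃ g : Perm α → ℝ, g = fun τ => (∑ ρ, f ρ τ) / ((Fintype.card α)! : ℝ) :=
    ⟨_, rfl⟩
  have hg' : ∀ τ, g τ = (∑ ρ, f ρ τ) / ((Fintype.card α)! : ℝ) := fun τ => by rw [hg]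
  have hgs : ∀ τ a b, |g (τ * swap a b) - g τ| ≤ L := by
    intro τ a b
    have h3 : g (τ * swap a b) - g τ =
        (∑ ρ, (f ρ (τ * swap a b) - f ρ τ)) / ((Fintype.card α)! : ℝ) := by
      rw [hg', hg', ← sub_div, ← sum_sub_distrib]
    rw [h3, abs_div, abs_of_pos hN0, div_le_iff₀ hN0]
    refine (abs_sum_le_sum_abs _ _).trans ?_
    refine (sum_le_sum fun ρ _ => h2 ρ τ a b).trans ?_
    rw [sum_const, card_univ, Fintype.card_perm, nsmul_eq_mul, mul_comm]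
  have hmean : (∑ τ, g τ) / ((Fintype.card α)! : ℝ) =
      (∑ ρ, ∑ τ, f ρ τ) / ((Fintype.card α)! : ℝ) ^ 2 := by
    simp only [hg']
    rw [← sum_div, sum_comm, div_div, pow_two]
  obtain ⟨m, hm'⟩ : ∃ m, m = (∑ ρ, ∑ τ, f ρ τ) / ((Fintype.card α)! : ℝ) ^ 2 := ⟨_, rfl⟩
  rw [← hm'] at hmean ⊢
  have A := mgf hm α g L lam hL hgs
  rw [hmean] at A
  have B : ∀ τ, ∑ ρ, Real.exp (lam * (f ρ τ - g τ)) ≤
      ((Fintype.card α)! : ℝ) * Real.exp (Fintype.card α * lam ^ 2 * L ^ 2 / 2) := by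
    intro τ
    have h3 := mgf hm α (fun ρ => f ρ τ) L lam hL (fun ρ a b => h1 ρ τ a b)
    rw [← hg'] at h3
    exact h3
  rw [sum_comm]
  obtain ⟨E, hE⟩ : ∃ E, E = Real.exp (Fintype.card α * lam ^ 2 * L ^ 2 / 2) := ⟨_, rfl⟩
  rw [← hE] at A B
  have hEpos : 0 < E := by
    rw [hE]
    exact Real.exp_pos _
  calc ∑ τ, ∑ ρ, Real.exp (lam * (f ρ τ - m))
      = ∑ τ, Real.exp (lam * (g τ - m)) * ∑ ρ, Real.exp (lam * (f ρ τ - g τ)) := by
        refine sum_congr rfl fun τ _ => ?_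
        rw [mul_sum]
        refine sum_congr rfl fun ρ _ => ?_
        rw [← Real.exp_add]
        congr 1
        ring
    _ ≤ ∑ τ, Real.exp (lam * (g τ - m)) * (((Fintype.card α)! : ℝ) * E) :=
        sum_le_sum fun τ _ => mul_le_mul_of_nonneg_left (B τ) (Real.exp_pos _).le
    _ = (∑ τ, Real.exp (lam * (g τ - m))) * (((Fintype.card α)! : ℝ) * E) := by rw [sum_mul]
    _ ≤ (((Fintype.card α)! : ℝ) * E) * (((Fintype.card α)! : ℝ) * E) :=
        mul_le_mul_of_nonneg_right A (by positivity)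
    _ = ((Fintype.card α)! : ℝ) ^ 2 * Real.exp (Fintype.card α * lam ^ 2 * L ^ 2) := by
        rw [show (Fintype.card α : ℝ) * lam ^ 2 * L ^ 2 =
          Fintype.card α * lam ^ 2 * L ^ 2 / 2 + Fintype.card α * lam ^ 2 * L ^ 2 / 2 by ring,
          Real.exp_add, ← hE]
        ring

theorem conc (hm : S_MGF) : S_CONC := by
  intro α _ _ f L t hL ht h1 h2
  classical
  obtain ⟨m, hm'⟩ : ∃ m, m = (∑ ρ, ∑ τ, f ρ τ) / ((Fintype.card α)! : ℝ) ^ 2 := ⟨_, rfl⟩
  have hset : {q : Perm α × Perm α | t ≤ f q.1 q.2 -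
      (∑ ρ, ∑ τ, f ρ τ) / ((Fintype.card α)! : ℝ) ^ 2} =
      ((univ.filter fun q : Perm α × Perm α => t ≤ f q.1 q.2 - m : Finset _) :
        Set (Perm α × Perm α)) := by
    ext q
    rw [mem_coe, mem_filter, hm']
    simp
  rw [hset, Set.ncard_coe_finset]
  obtain ⟨Q, hQ⟩ : ∃ Q : Finset (Perm α × Perm α),
    Q = univ.filter fun q : Perm α × Perm α => t ≤ f q.1 q.2 - m := ⟨_, rfl⟩
  rw [← hQ]
  have hN0 : (0 : ℝ) < ((Fintype.card α)! : ℝ) := by exact_mod_cast Nat.factorial_pos _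
  have hmk : ∀ lam : ℝ, 0 ≤ lam → (Q.card : ℝ) * Real.exp (lam * t) ≤
      ((Fintype.card α)! : ℝ) ^ 2 * Real.exp (Fintype.card α * lam ^ 2 * L ^ 2) := by
    intro lam hlam
    have h3 := total hm α f L lam hL.le h1 h2
    rw [← hm'] at h3
    refine le_trans ?_ h3
    rw [← nsmul_eq_mul, ← sum_const, ← sum_product']
    refine le_trans (sum_le_sum (g := fun q : Perm α × Perm α => Real.exp (lam * (f q.1 q.2 - m)))
      fun q hq => ?_) ?_
    · rw [hQ, mem_filter] at hq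
      exact Real.exp_le_exp.2 (mul_le_mul_of_nonneg_left hq.2 hlam)
    · refine sum_le_sum_of_subset_of_nonneg ?_ fun q _ _ => (Real.exp_pos _).le
      intro q _
      exact mem_product.2 ⟨mem_univ _, mem_univ _⟩
  rcases Nat.eq_zero_or_pos (Fintype.card α) with hn | hn
  · have h3 := hmk 0 le_rfl
    rw [zero_mul, Real.exp_zero, mul_one] at h3
    simp only [hn, Nat.cast_zero, mul_zero, zero_mul, div_zero, neg_zero, Real.exp_zero, one_mul,
      mul_one] at h3 ⊢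
    exact h3
  · have hn' : (0 : ℝ) < Fintype.card α := by exact_mod_cast hn
    have h3 := hmk (t / (2 * Fintype.card α * L ^ 2)) (by positivity)
    have h4 : (Q.card : ℝ) ≤ ((Fintype.card α)! : ℝ) ^ 2 *
        Real.exp (Fintype.card α * (t / (2 * Fintype.card α * L ^ 2)) ^ 2 * L ^ 2) /
          Real.exp (t / (2 * Fintype.card α * L ^ 2) * t) := by
      rw [le_div_iff₀ (Real.exp_pos _)]
      exact h3
    refine h4.trans (le_of_eq ?_)
    rw [mul_div_assoc, ← Real.exp_sub, mul_comm]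
    congr 2
    field_simp
    ring

end Pool.Agent.H154.AV
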